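import Pool.Agent.H95.INS.Targets2

/-!
# Dependence of the global condition
-/

open MeasureTheory ProbabilityTheory
open scoped ENNReal

namespace Pool.Agent.H17.INS

open Pool.Agent.H99.NS Pool.Agent.H22.LPP Pool.Agent.H95.INS

theorem near_congr {ω ω' : Env} {o e : Site} (h : ∀ x ∈ dom o e, ω x = ω' x) (c : ℝ)
    (g : ℤ → ℤ) : Near ω o e c g ↔ Near ω' o e c g := by
  unfold Near
  constructor
  · rintro ⟨h1, h2⟩
    refine ⟨h1, ?_⟩
    rw [← T_congr h]
    have : wt ω o.1 e.1 g = wt ω' o.1 e.1 g := by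
      apply wt_congr
      intro r hr1 hr2
      exact h _ ⟨hr1, (h1.left hr2).reach hr1.le, (h1.right hr1.le).reach hr2⟩
    rw [← this]; exact h2
  · rintro ⟨h1, h2⟩
    refine ⟨h1, ?_⟩
    rw [T_congr h]
    have : wt ω o.1 e.1 g = wt ω' o.1 e.1 g := by
      apply wt_congr
      intro r hr1 hr2
      exact h _ ⟨hr1, (h1.left hr2).reach hr1.le, (h1.right hr1.le).reach hr2⟩
    rw [this]; exact h2

theorem pf_DER : T_DER := by
  intro D o e _ _ _ ω ω' h
  simp only [RR, eq_iff_iff]
  constructor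
  · intro h1 g hg
    exact h1 g ((near_congr h _ g).2 hg)
  · intro h1 g hg
    exact h1 g ((near_congr h _ g).1 hg)

end Pool.Agent.H17.INS
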