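import Pool.Agent.H95.INS.Targets2

/-!
# Measurability of properties of finitely many weights
-/

open MeasureTheory ProbabilityTheory
open scoped ENNReal

namespace Pool.Agent.H17.INS

open Pool.Agent.H99.NS Pool.Agent.H22.LPP Pool.Agent.H95.INS

theorem pf_FIM : T_FIM := by
  classical
  intro A E hA hE
  have hf : Finite A := hA
  rcases Set.eq_empty_or_nonempty {ω | E ω} with h0 | ⟨w0, hw0⟩
  · rw [h0]; exact MeasurableSet.empty
  -- restriction
  let r : Env → (A → ℕ) := fun ω x => ω x
  have hr : Measurable r := by
    refine measurable_pi_lambda _ fun x => ?_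
    exact measurable_pi_apply _
  let S : Set (A → ℕ) := {y | E (fun x => if h : x ∈ A then y ⟨x, h⟩ else w0 x)}
  have hS : MeasurableSet S := (Set.to_countable S).measurableSet
  have hEq : {ω | E ω} = r ⁻¹' S := by
    ext ω
    simp only [Set.mem_preimage, Set.mem_ofPred_eq, S, r]
    have := hE ω (fun x => if h : x ∈ A then ω x else w0 x) (fun x hx => by
      simp only [hx, dif_pos])
    simp only [eq_iff_iff] at this
    exact this
  rw [hEq]
  exact hr hS

end Pool.Agent.H17.INS
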