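import Pool.Agent.H17.INS.FIM

/-!
# The strength of the two highway slabs has the same law
-/

open MeasureTheory ProbabilityTheory
open scoped ENNReal

namespace Pool.Agent.H17.INS

open Pool.Agent.H99.NS Pool.Agent.H22.LPP Pool.Agent.H95.INS

theorem depOn_HWs (D : Dat) (s t : ℤ) (c : ℝ) : DepOn (Nr D s t) (fun ω => HWs D ω s t c) := by
  have key : ∀ ω ω' : Env, (∀ x ∈ Nr D s t, ω x = ω' x) → HWs D ω s t c → HWs D ω' s t c := by
    rintro ω ω' h ⟨g, hg, hg2⟩
    refine ⟨g, hg, ?_⟩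
    have : wt ω' s t g = wt ω s t g := by
      apply wt_congr
      intro r hr1 hr2
      exact (h (r, g r) ⟨hr1, hr2, hg.2.1 r hr1.le hr2⟩).symm
    unfold Exc at hg2 ⊢
    rw [this]
    exact hg2
  intro ω ω' h
  simp only [eq_iff_iff]
  exact ⟨key ω ω' h, key ω' ω fun x hx => (h x hx).symm⟩

theorem finite_Nr (D : Dat) (s t : ℤ) : (Nr D s t).Finite := by
  refine Set.Finite.subset
    (Finset.finite_toSet (Finset.Icc (s, -(D.A / 2 * D.w)) (t, D.A / 2 * D.w))) ?_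
  rintro x ⟨h1, h2, h3⟩
  replace h3 := abs_le.1 h3.le
  rw [Finset.coe_Icc, Set.mem_Icc, Prod.le_def, Prod.le_def]
  exact ⟨⟨h1.le, h3.1⟩, h2, h3.2⟩

theorem hws_shift (D : Dat) (hn : Even D.n) (ω : Env) (c : ℝ) :
    HWs D (shiftE (5 * D.n, 0) ω) (-(3 * D.n)) (-(2 * D.n)) c ↔
      HWs D ω (2 * D.n) (3 * D.n) c := by
  have e1 : -(3 * D.n) + 5 * D.n = 2 * D.n := by ring
  have e2 : -(2 * D.n) + 5 * D.n = 3 * D.n := by ring
  have e3 : 2 * D.n - 5 * D.n = -(3 * D.n) := by ring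
  have e4 : 3 * D.n - 5 * D.n = -(2 * D.n) := by ring
  constructor
  · rintro ⟨h, ⟨h1, h2, h3, h4, h5⟩, h6⟩
    refine ⟨fun r => h (r - 5 * D.n), ⟨?_, ?_, ?_, ?_, ?_⟩, ?_⟩
    · intro r hr1 hr2
      have := h1 (r - 5 * D.n) (by omega) (by omega)
      simp only
      rw [show r + 1 - 5 * D.n = r - 5 * D.n + 1 by ring]
      exact this
    · intro r hr1 hr2
      exact h2 (r - 5 * D.n) (by omega) (by omega)
    · simp only [e3]; exact h3
    · simp only [e4]; exact h4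
    · simp only [e3]
      obtain ⟨k, hk⟩ := hn
      obtain ⟨m, hm⟩ := h5
      exact ⟨m + 5 * k, by omega⟩
    · unfold Exc par at h6 ⊢
      rw [wt_shift] at h6
      simp only [e1, e2, e3, e4, add_zero] at h6 ⊢
      have e5 : (3 * D.n - 2 * D.n : ℤ) = -(2 * D.n) - -(3 * D.n) := by ring
      rw [e5]
      exact h6
  · rintro ⟨h, ⟨h1, h2, h3, h4, h5⟩, h6⟩
    refine ⟨fun r => h (r + 5 * D.n), ⟨?_, ?_, ?_, ?_, ?_⟩, ?_⟩
    · intro r hr1 hr2
      have := h1 (r + 5 * D.n) (by omega) (by omega)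
      simp only
      rw [show r + 1 + 5 * D.n = r + 5 * D.n + 1 by ring]
      exact this
    · intro r hr1 hr2
      exact h2 (r + 5 * D.n) (by omega) (by omega)
    · simp only [e1]; exact h3
    · simp only [e2]; exact h4
    · simp only [e1]
      obtain ⟨k, hk⟩ := hn
      obtain ⟨m, hm⟩ := h5
      exact ⟨m - 5 * k, by omega⟩
    · unfold Exc par at h6 ⊢
      rw [wt_shift]
      simp only [e1, e2, add_zero, sub_add_cancel] at h6 ⊢
      have e5 : (-(2 * D.n) - -(3 * D.n) : ℤ) = 3 * D.n - 2 * D.n := by ring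
      rw [e5]
      exact h6

theorem pf_PH2 : T_PH2 := by
  intro D hn
  unfold pH
  have hm : MeasurableSet {ω | HWs D ω (-(3 * D.n)) (-(2 * D.n)) 1} :=
    pf_FIM _ _ (finite_Nr D _ _) (depOn_HWs D _ _ _)
  rw [← (mp_shiftE D.q (5 * D.n, 0)).measure_preimage hm.nullMeasurableSet]
  congr 1
  ext ω
  simp only [Set.mem_preimage, Set.mem_ofPred_eq]
  exact (hws_shift D hn ω 1).symm

end Pool.Agent.H17.INS
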